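import Pool.Agent.H4.EPB.Stm
import Pool.Agent.H87.EP.Z

/-! Parts BB1, BB2 of the project EP: binomial coefficients and factorials are existentially
definable from exponentiation, in all models of PA. -/

set_option autoImplicit false
set_option linter.unreachableTactic false
set_option linter.unusedTactic false

namespace Pool.Agent.H42.EP

open Pool.Agent.Helper687.Arith Pool.Agent.H51.EP Pool.Agent.H4.EPB Pool.Agent.H87.EP

section

variable {M : Type} [PAModel M]

/-- `∑_{i < k} C(n, i) B ^ i` -/
noncomputable def bs (B n k : M) : M := rc 0 (fun i y => y + bn n i * pw B i) k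

theorem bs_def (B n : M) : Def (M := M) (fun v => v 0 = (fun i y => y + bn n i * pw B i) (v 1) (v 2)) := by
  (repeat' first | with_reducible apply Pool.Agent.H87.EP.DefZ.eq | with_reducible apply Pool.Agent.H87.EP.DefZ.lt | with_reducible apply Pool.Agent.H87.EP.DefZ.le | with_reducible apply Pool.Agent.H87.EP.DefZ.dvd | with_reducible exact Pool.Agent.H87.EP.DefZ.const _ | with_reducible apply Pool.Agent.H87.EP.DefZ.coe | with_reducible apply Pool.Agent.H87.EP.DefZ.add | with_reducible apply Pool.Agent.H87.EP.DefZ.mul | with_reducible apply Pool.Agent.H87.EP.DefZ.sub | with_reducible apply Pool.Agent.H87.EP.DefZ.neg | with_reducible apply Pool.Agent.H87.EP.DefZ.npow | with_reducible apply Pool.Agent.H51.EP.Def.cg | with_reducible apply Pool.Agent.H51.EP.DefF.pr | with_reducible apply Pool.Agent.H51.EP.DefF.bn | with_reducible apply Pool.Agent.H51.EP.DefF.ff | with_reducible apply Pool.Agent.H51.EP.DefF.fc | with_reducible apply Pool.Agent.H51.EP.DefF.pw | with_reducible apply Pool.Agent.H51.EP.DefF.sb | with_reducible apply Pool.Agent.H51.EP.DefF.rc |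 with_reducible apply Pool.Agent.H51.EP.Def.dvd | assumption | with_reducible exact Pool.Agent.Helper687.Arith.DefF.var _ | with_reducible exact Pool.Agent.Helper687.Arith.DefF.const _ | with_reducible exact Pool.Agent.Helper687.Arith.Def.const _ | with_reducible apply Pool.Agent.Helper687.Arith.DefF.val | with_reducible apply Pool.Agent.Helper687.Arith.DefF.pow2 | with_reducible apply Pool.Agent.Helper687.Arith.Def.and | with_reducible apply Pool.Agent.Helper687.Arith.Def.or | with_reducible apply Pool.Agent.Helper687.Arith.Def.iff | with_reducible apply Pool.Agent.Helper687.Arith.Def.not | with_reducible apply Pool.Agent.Helper687.Arith.Def.ex | with_reducible apply Pool.Agent.Helper687.Arith.Def.all | with_reducible apply Pool.Agent.Helper687.Arith.Def.imp | with_reducible apply Pool.Agent.Helper687.Arith.Def.eq | with_reducible apply Pool.Agent.Helper687.Arith.Def.lt | with_reducible apply Pool.Agent.Helper687.Arith.Def.le | with_reducible apply Pool.Agent.Helper687.Arith.DefF.add | with_reducible apply Pool.Agent.Helper687.Arith.DefF.mul | with_reducible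 apply Pool.Agent.Helper687.Arith.DefF.the)

theorem DefF.bs {f g h : (ℕ → M) → M} (hf : DefF f) (hg : DefF g) (hh : DefF h) :
    DefF (fun v => bs (f v) (g v) (h v)) := by
  have h1 : DefF (M := M) (fun v => H42.EP.bs (v 0) (v 1) (v 2)) := by
    unfold H42.EP.bs
    exact DefF.rc (c := fun _ => 0) (g := fun v i y => y + bn (v 1) i * pw (v 0) i)
      (n := fun v => v 2) (by (repeat' first | with_reducible apply Pool.Agent.H87.EP.DefZ.eq | with_reducible apply Pool.Agent.H87.EP.DefZ.lt | with_reducible apply Pool.Agent.H87.EP.DefZ.le | with_reducible apply Pool.Agent.H87.EP.DefZ.dvd | with_reducible exact Pool.Agent.H87.EP.DefZ.const _ | with_reducible apply Pool.Agent.H87.EP.DefZ.coe | with_reducible apply Pool.Agent.H87.EP.DefZ.add | with_reducible apply Pool.Agent.H87.EP.DefZ.mul | with_reducible apply Pool.Agent.H87.EP.DefZ.sub | with_reducible apply Pool.Agent.H87.EP.DefZ.neg | with_reducible apply Pool.Agent.H87.EP.DefZ.npow | with_reducible apply Pool.Agent.H51.EP.Def.cg | with_reducible apply Pool.Agent.H51.EP.DefF.pr | with_reducible apply Pool.Agent.H51.EP.DefF.bn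 | with_reducible apply Pool.Agent.H51.EP.DefF.ff | with_reducible apply Pool.Agent.H51.EP.DefF.fc | with_reducible apply Pool.Agent.H51.EP.DefF.pw | with_reducible apply Pool.Agent.H51.EP.DefF.sb | with_reducible apply Pool.Agent.H51.EP.DefF.rc | with_reducible apply Pool.Agent.H51.EP.Def.dvd | assumption | with_reducible exact Pool.Agent.Helper687.Arith.DefF.var _ | with_reducible exact Pool.Agent.Helper687.Arith.DefF.const _ | with_reducible exact Pool.Agent.Helper687.Arith.Def.const _ | with_reducible apply Pool.Agent.Helper687.Arith.DefF.val | with_reducible apply Pool.Agent.Helper687.Arith.DefF.pow2 | with_reducible apply Pool.Agent.Helper687.Arith.Def.and | with_reducible apply Pool.Agent.Helper687.Arith.Def.or | with_reducible apply Pool.Agent.Helper687.Arith.Def.iff | with_reducible apply Pool.Agent.Helper687.Arith.Def.not | with_reducible apply Pool.Agent.Helper687.Arith.Def.ex | with_reducible apply Pool.Agent.Helper687.Arith.Def.all | with_reducible apply Pool.Agent.Helper687.Arith.Def.imp | with_reducible apply Pool.Agent.Helper687.Arith.Def.eq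 | with_reducible apply Pool.Agent.Helper687.Arith.Def.lt | with_reducible apply Pool.Agent.Helper687.Arith.Def.le | with_reducible apply Pool.Agent.Helper687.Arith.DefF.add | with_reducible apply Pool.Agent.Helper687.Arith.DefF.mul | with_reducible apply Pool.Agent.Helper687.Arith.DefF.the)) (by (repeat' first | with_reducible apply Pool.Agent.H87.EP.DefZ.eq | with_reducible apply Pool.Agent.H87.EP.DefZ.lt | with_reducible apply Pool.Agent.H87.EP.DefZ.le | with_reducible apply Pool.Agent.H87.EP.DefZ.dvd | with_reducible exact Pool.Agent.H87.EP.DefZ.const _ | with_reducible apply Pool.Agent.H87.EP.DefZ.coe | with_reducible apply Pool.Agent.H87.EP.DefZ.add | with_reducible apply Pool.Agent.H87.EP.DefZ.mul | with_reducible apply Pool.Agent.H87.EP.DefZ.sub | with_reducible apply Pool.Agent.H87.EP.DefZ.neg | with_reducible apply Pool.Agent.H87.EP.DefZ.npow | with_reducible apply Pool.Agent.H51.EP.Def.cg | with_reducible apply Pool.Agent.H51.EP.DefF.pr | with_reducible apply Pool.Agent.H51.EP.DefF.bn | with_reducible apply Pool.Agent.H51.EP.DefF.ff | with_reducible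 apply Pool.Agent.H51.EP.DefF.fc | with_reducible apply Pool.Agent.H51.EP.DefF.pw | with_reducible apply Pool.Agent.H51.EP.DefF.sb | with_reducible apply Pool.Agent.H51.EP.DefF.rc | with_reducible apply Pool.Agent.H51.EP.Def.dvd | assumption | with_reducible exact Pool.Agent.Helper687.Arith.DefF.var _ | with_reducible exact Pool.Agent.Helper687.Arith.DefF.const _ | with_reducible exact Pool.Agent.Helper687.Arith.Def.const _ | with_reducible apply Pool.Agent.Helper687.Arith.DefF.val | with_reducible apply Pool.Agent.Helper687.Arith.DefF.pow2 | with_reducible apply Pool.Agent.Helper687.Arith.Def.and | with_reducible apply Pool.Agent.Helper687.Arith.Def.or | with_reducible apply Pool.Agent.Helper687.Arith.Def.iff | with_reducible apply Pool.Agent.Helper687.Arith.Def.not | with_reducible apply Pool.Agent.Helper687.Arith.Def.ex | with_reducible apply Pool.Agent.Helper687.Arith.Def.all | with_reducible apply Pool.Agent.Helper687.Arith.Def.imp | with_reducible apply Pool.Agent.Helper687.Arith.Def.eq | with_reducible apply Pool.Agent.Helper687.Arith.Def.lt | with_reducible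 apply Pool.Agent.Helper687.Arith.Def.le | with_reducible apply Pool.Agent.Helper687.Arith.DefF.add | with_reducible apply Pool.Agent.Helper687.Arith.DefF.mul | with_reducible apply Pool.Agent.Helper687.Arith.DefF.the)) (by (repeat' first | with_reducible apply Pool.Agent.H87.EP.DefZ.eq | with_reducible apply Pool.Agent.H87.EP.DefZ.lt | with_reducible apply Pool.Agent.H87.EP.DefZ.le | with_reducible apply Pool.Agent.H87.EP.DefZ.dvd | with_reducible exact Pool.Agent.H87.EP.DefZ.const _ | with_reducible apply Pool.Agent.H87.EP.DefZ.coe | with_reducible apply Pool.Agent.H87.EP.DefZ.add | with_reducible apply Pool.Agent.H87.EP.DefZ.mul | with_reducible apply Pool.Agent.H87.EP.DefZ.sub | with_reducible apply Pool.Agent.H87.EP.DefZ.neg | with_reducible apply Pool.Agent.H87.EP.DefZ.npow | with_reducible apply Pool.Agent.H51.EP.Def.cg | with_reducible apply Pool.Agent.H51.EP.DefF.pr | with_reducible apply Pool.Agent.H51.EP.DefF.bn | with_reducible apply Pool.Agent.H51.EP.DefF.ff | with_reducible apply Pool.Agent.H51.EP.DefF.fc | with_reducible apply Pool.Agent.H51.EP.DefF.pw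 | with_reducible apply Pool.Agent.H51.EP.DefF.sb | with_reducible apply Pool.Agent.H51.EP.DefF.rc | with_reducible apply Pool.Agent.H51.EP.Def.dvd | assumption | with_reducible exact Pool.Agent.Helper687.Arith.DefF.var _ | with_reducible exact Pool.Agent.Helper687.Arith.DefF.const _ | with_reducible exact Pool.Agent.Helper687.Arith.Def.const _ | with_reducible apply Pool.Agent.Helper687.Arith.DefF.val | with_reducible apply Pool.Agent.Helper687.Arith.DefF.pow2 | with_reducible apply Pool.Agent.Helper687.Arith.Def.and | with_reducible apply Pool.Agent.Helper687.Arith.Def.or | with_reducible apply Pool.Agent.Helper687.Arith.Def.iff | with_reducible apply Pool.Agent.Helper687.Arith.Def.not | with_reducible apply Pool.Agent.Helper687.Arith.Def.ex | with_reducible apply Pool.Agent.Helper687.Arith.Def.all | with_reducible apply Pool.Agent.Helper687.Arith.Def.imp | with_reducible apply Pool.Agent.Helper687.Arith.Def.eq | with_reducible apply Pool.Agent.Helper687.Arith.Def.lt | with_reducible apply Pool.Agent.Helper687.Arith.Def.le | with_reducible apply Pool.Agent.Helper687.Arith.DefF.add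 | with_reducible apply Pool.Agent.Helper687.Arith.DefF.mul | with_reducible apply Pool.Agent.Helper687.Arith.DefF.the))
  exact DefF.app3 h1 hf hg hh

theorem bs_zero (B n : M) : bs B n 0 = 0 := rc_zero (bs_def B n)

theorem bs_succ (B n k : M) : bs B n (k + 1) = bs B n k + bn n k * pw B k := rc_succ (bs_def B n) k

end


section

variable {M : Type} [PAModel M]

theorem bs_lt {B n : M} (hB : pw 2 n < B) (k : M) : bs B n k < pw B k := by
  refine ind (P := fun k => bs B n k < pw B k) ?_ ?_ ?_ k
  · (repeat' first | with_reducible apply Pool.Agent.H42.EP.DefF.bs | with_reducible apply Pool.Agent.H87.EP.DefZ.eq | with_reducible apply Pool.Agent.H87.EP.DefZ.lt | with_reducible apply Pool.Agent.H87.EP.DefZ.le | with_reducible apply Pool.Agent.H87.EP.DefZ.dvd | with_reducible exact Pool.Agent.H87.EP.DefZ.const _ | with_reducible apply Pool.Agent.H87.EP.DefZ.coe | with_reducible apply Pool.Agent.H87.EP.DefZ.add | with_reducible apply Pool.Agent.H87.EP.DefZ.mul | with_reducible apply Pool.Agent.H87.EP.DefZ.sub | with_reducible apply Pool.Agent.H87.EP.DefZ.neg |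 with_reducible apply Pool.Agent.H87.EP.DefZ.npow | with_reducible apply Pool.Agent.H51.EP.Def.cg | with_reducible apply Pool.Agent.H51.EP.DefF.pr | with_reducible apply Pool.Agent.H51.EP.DefF.bn | with_reducible apply Pool.Agent.H51.EP.DefF.ff | with_reducible apply Pool.Agent.H51.EP.DefF.fc | with_reducible apply Pool.Agent.H51.EP.DefF.pw | with_reducible apply Pool.Agent.H51.EP.DefF.sb | with_reducible apply Pool.Agent.H51.EP.DefF.rc | with_reducible apply Pool.Agent.H51.EP.Def.dvd | assumption | with_reducible exact Pool.Agent.Helper687.Arith.DefF.var _ | with_reducible exact Pool.Agent.Helper687.Arith.DefF.const _ | with_reducible exact Pool.Agent.Helper687.Arith.Def.const _ | with_reducible apply Pool.Agent.Helper687.Arith.DefF.val | with_reducible apply Pool.Agent.Helper687.Arith.DefF.pow2 | with_reducible apply Pool.Agent.Helper687.Arith.Def.and | with_reducible apply Pool.Agent.Helper687.Arith.Def.or | with_reducible apply Pool.Agent.Helper687.Arith.Def.iff | with_reducible apply Pool.Agent.Helper687.Arith.Def.not | with_reducible apply Pool.Agent.Helper687.Arith.Def.ex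 | with_reducible apply Pool.Agent.Helper687.Arith.Def.all | with_reducible apply Pool.Agent.Helper687.Arith.Def.imp | with_reducible apply Pool.Agent.Helper687.Arith.Def.eq | with_reducible apply Pool.Agent.Helper687.Arith.Def.lt | with_reducible apply Pool.Agent.Helper687.Arith.Def.le | with_reducible apply Pool.Agent.Helper687.Arith.DefF.add | with_reducible apply Pool.Agent.Helper687.Arith.DefF.mul | with_reducible apply Pool.Agent.Helper687.Arith.DefF.the)
  · rw [bs_zero, pw_zero]; exact zero_lt_one
  · intro k ih
    rw [bs_succ, pw_succ]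
    have h1 : bn n k + 1 ≤ B := succ_le_iff.2 (lt_of_le_of_lt (bn_le_pw n k) hB)
    calc bs B n k + bn n k * pw B k < pw B k + bn n k * pw B k := by gcongr
      _ = pw B k * (bn n k + 1) := by ring
      _ ≤ pw B k * B := mul_le_mul_of_nonneg_left h1 zero_le

theorem bs_pascal (B n k : M) : bs B (n + 1) (k + 1) = (B + 1) * bs B n k + bn n k * pw B k := by
  refine ind (P := fun k => bs B (n + 1) (k + 1) = (B + 1) * bs B n k + bn n k * pw B k) ?_ ?_ ?_ k
  · (repeat' first | with_reducible apply Pool.Agent.H42.EP.DefF.bs | with_reducible apply Pool.Agent.H87.EP.DefZ.eq | with_reducible apply Pool.Agent.H87.EP.DefZ.lt | with_reducible apply Pool.Agent.H87.EP.DefZ.le | with_reducible apply Pool.Agent.H87.EP.DefZ.dvd | with_reducible exact Pool.Agent.H87.EP.DefZ.const _ | with_reducible apply Pool.Agent.H87.EP.DefZ.coe | with_reducible apply Pool.Agent.H87.EP.DefZ.add | with_reducible apply Pool.Agent.H87.EP.DefZ.mul | with_reducible apply Pool.Agent.H87.EP.DefZ.sub | with_reducible apply Pool.Agent.H87.EP.DefZ.neg | with_reducible apply Pool.Agent.H87.EP.DefZ.npow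 | with_reducible apply Pool.Agent.H51.EP.Def.cg | with_reducible apply Pool.Agent.H51.EP.DefF.pr | with_reducible apply Pool.Agent.H51.EP.DefF.bn | with_reducible apply Pool.Agent.H51.EP.DefF.ff | with_reducible apply Pool.Agent.H51.EP.DefF.fc | with_reducible apply Pool.Agent.H51.EP.DefF.pw | with_reducible apply Pool.Agent.H51.EP.DefF.sb | with_reducible apply Pool.Agent.H51.EP.DefF.rc | with_reducible apply Pool.Agent.H51.EP.Def.dvd | assumption | with_reducible exact Pool.Agent.Helper687.Arith.DefF.var _ | with_reducible exact Pool.Agent.Helper687.Arith.DefF.const _ | with_reducible exact Pool.Agent.Helper687.Arith.Def.const _ | with_reducible apply Pool.Agent.Helper687.Arith.DefF.val | with_reducible apply Pool.Agent.Helper687.Arith.DefF.pow2 | with_reducible apply Pool.Agent.Helper687.Arith.Def.and | with_reducible apply Pool.Agent.Helper687.Arith.Def.or | with_reducible apply Pool.Agent.Helper687.Arith.Def.iff | with_reducible apply Pool.Agent.Helper687.Arith.Def.not | with_reducible apply Pool.Agent.Helper687.Arith.Def.ex | with_reducible apply Pool.Agent.Helper687.Arith.Def.all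 | with_reducible apply Pool.Agent.Helper687.Arith.Def.imp | with_reducible apply Pool.Agent.Helper687.Arith.Def.eq | with_reducible apply Pool.Agent.Helper687.Arith.Def.lt | with_reducible apply Pool.Agent.Helper687.Arith.Def.le | with_reducible apply Pool.Agent.Helper687.Arith.DefF.add | with_reducible apply Pool.Agent.Helper687.Arith.DefF.mul | with_reducible apply Pool.Agent.Helper687.Arith.DefF.the)
  · rw [bs_succ, bs_zero, bs_zero, bn_zero, bn_zero]
    ring
  · intro k ih
    rw [bs_succ, ih, bs_succ, bn_pascal, pw_succ]
    ring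

theorem bs_eq_pw (B n : M) : ∀ k : M, n < k → bs B n k = pw (B + 1) n := by
  refine ind (P := fun n => ∀ k : M, n < k → bs B n k = pw (B + 1) n) ?_ ?_ ?_ n
  · (repeat' first | with_reducible apply Pool.Agent.H42.EP.DefF.bs | with_reducible apply Pool.Agent.H87.EP.DefZ.eq | with_reducible apply Pool.Agent.H87.EP.DefZ.lt | with_reducible apply Pool.Agent.H87.EP.DefZ.le | with_reducible apply Pool.Agent.H87.EP.DefZ.dvd | with_reducible exact Pool.Agent.H87.EP.DefZ.const _ | with_reducible apply Pool.Agent.H87.EP.DefZ.coe | with_reducible apply Pool.Agent.H87.EP.DefZ.add | with_reducible apply Pool.Agent.H87.EP.DefZ.mul | with_reducible apply Pool.Agent.H87.EP.DefZ.sub | with_reducible apply Pool.Agent.H87.EP.DefZ.neg | with_reducible apply Pool.Agent.H87.EP.DefZ.npow | with_reducible apply Pool.Agent.H51.EP.Def.cg | with_reducible apply Pool.Agent.H51.EP.DefF.pr | with_reducible apply Pool.Agent.H51.EP.DefF.bn | with_reducible apply Pool.Agent.H51.EP.DefF.ff | with_reducible apply Pool.Agent.H51.EP.DefF.fc | with_reducible apply Pool.Agent.H51.EP.DefF.pw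 | with_reducible apply Pool.Agent.H51.EP.DefF.sb | with_reducible apply Pool.Agent.H51.EP.DefF.rc | with_reducible apply Pool.Agent.H51.EP.Def.dvd | assumption | with_reducible exact Pool.Agent.Helper687.Arith.DefF.var _ | with_reducible exact Pool.Agent.Helper687.Arith.DefF.const _ | with_reducible exact Pool.Agent.Helper687.Arith.Def.const _ | with_reducible apply Pool.Agent.Helper687.Arith.DefF.val | with_reducible apply Pool.Agent.Helper687.Arith.DefF.pow2 | with_reducible apply Pool.Agent.Helper687.Arith.Def.and | with_reducible apply Pool.Agent.Helper687.Arith.Def.or | with_reducible apply Pool.Agent.Helper687.Arith.Def.iff | with_reducible apply Pool.Agent.Helper687.Arith.Def.not | with_reducible apply Pool.Agent.Helper687.Arith.Def.ex | with_reducible apply Pool.Agent.Helper687.Arith.Def.all | with_reducible apply Pool.Agent.Helper687.Arith.Def.imp | with_reducible apply Pool.Agent.Helper687.Arith.Def.eq | with_reducible apply Pool.Agent.Helper687.Arith.Def.lt | with_reducible apply Pool.Agent.Helper687.Arith.Def.le | with_reducible apply Pool.Agent.Helper687.Arith.DefF.add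 | with_reducible apply Pool.Agent.Helper687.Arith.DefF.mul | with_reducible apply Pool.Agent.Helper687.Arith.DefF.the)
  · intro k hk
    obtain ⟨j, rfl⟩ := exists_pred hk
    rw [pw_zero]
    refine ind (P := fun j => bs B 0 (j + 1) = 1) ?_ ?_ ?_ j
    · (repeat' first | with_reducible apply Pool.Agent.H42.EP.DefF.bs | with_reducible apply Pool.Agent.H87.EP.DefZ.eq | with_reducible apply Pool.Agent.H87.EP.DefZ.lt | with_reducible apply Pool.Agent.H87.EP.DefZ.le | with_reducible apply Pool.Agent.H87.EP.DefZ.dvd | with_reducible exact Pool.Agent.H87.EP.DefZ.const _ | with_reducible apply Pool.Agent.H87.EP.DefZ.coe | with_reducible apply Pool.Agent.H87.EP.DefZ.add | with_reducible apply Pool.Agent.H87.EP.DefZ.mul | with_reducible apply Pool.Agent.H87.EP.DefZ.sub | with_reducible apply Pool.Agent.H87.EP.DefZ.neg | with_reducible apply Pool.Agent.H87.EP.DefZ.npow | with_reducible apply Pool.Agent.H51.EP.Def.cg | with_reducible apply Pool.Agent.H51.EP.DefF.pr | with_reducible apply Pool.Agent.H51.EP.DefF.bn | with_reducible apply Pool.Agent.H51.EP.DefF.ff | with_reducible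 apply Pool.Agent.H51.EP.DefF.fc | with_reducible apply Pool.Agent.H51.EP.DefF.pw | with_reducible apply Pool.Agent.H51.EP.DefF.sb | with_reducible apply Pool.Agent.H51.EP.DefF.rc | with_reducible apply Pool.Agent.H51.EP.Def.dvd | assumption | with_reducible exact Pool.Agent.Helper687.Arith.DefF.var _ | with_reducible exact Pool.Agent.Helper687.Arith.DefF.const _ | with_reducible exact Pool.Agent.Helper687.Arith.Def.const _ | with_reducible apply Pool.Agent.Helper687.Arith.DefF.val | with_reducible apply Pool.Agent.Helper687.Arith.DefF.pow2 | with_reducible apply Pool.Agent.Helper687.Arith.Def.and | with_reducible apply Pool.Agent.Helper687.Arith.Def.or | with_reducible apply Pool.Agent.Helper687.Arith.Def.iff | with_reducible apply Pool.Agent.Helper687.Arith.Def.not | with_reducible apply Pool.Agent.Helper687.Arith.Def.ex | with_reducible apply Pool.Agent.Helper687.Arith.Def.all | with_reducible apply Pool.Agent.Helper687.Arith.Def.imp | with_reducible apply Pool.Agent.Helper687.Arith.Def.eq | with_reducible apply Pool.Agent.Helper687.Arith.Def.lt | with_reducible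 apply Pool.Agent.Helper687.Arith.Def.le | with_reducible apply Pool.Agent.Helper687.Arith.DefF.add | with_reducible apply Pool.Agent.Helper687.Arith.DefF.mul | with_reducible apply Pool.Agent.Helper687.Arith.DefF.the)
    · rw [bs_succ, bs_zero, bn_zero, pw_zero, zero_add, mul_one]
    · intro j ih
      rw [bs_succ, ih, bn_eq_zero (zero_lt_succ' j), zero_mul, add_zero]
  · intro n ih k hk
    have h0 : (0 : M) < k := lt_of_le_of_lt zero_le hk
    obtain ⟨j, rfl⟩ := exists_pred h0
    have hj : n < j := by
      have := lt_succ_iff.1 hk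
      exact succ_le_iff.1 this
    rw [bs_pascal, ih j hj, bn_eq_zero hj, zero_mul, add_zero, pw_succ, mul_comm]

theorem bs_add (B n k j : M) : ∃ w, bs B n (k + j) = bs B n k + w * pw B k := by
  refine ind (P := fun j => ∃ w, bs B n (k + j) = bs B n k + w * pw B k) ?_ ?_ ?_ j
  · (repeat' first | with_reducible apply Pool.Agent.H42.EP.DefF.bs | with_reducible apply Pool.Agent.H87.EP.DefZ.eq | with_reducible apply Pool.Agent.H87.EP.DefZ.lt | with_reducible apply Pool.Agent.H87.EP.DefZ.le | with_reducible apply Pool.Agent.H87.EP.DefZ.dvd | with_reducible exact Pool.Agent.H87.EP.DefZ.const _ | with_reducible apply Pool.Agent.H87.EP.DefZ.coe | with_reducible apply Pool.Agent.H87.EP.DefZ.add | with_reducible apply Pool.Agent.H87.EP.DefZ.mul | with_reducible apply Pool.Agent.H87.EP.DefZ.sub | with_reducible apply Pool.Agent.H87.EP.DefZ.neg | with_reducible apply Pool.Agent.H87.EP.DefZ.npow | with_reducible apply Pool.Agent.H51.EP.Def.cg | with_reducible apply Pool.Agent.H51.EP.DefF.pr | with_reducible apply Pool.Agent.H51.EP.DefF.bn | with_reducible apply Pool.Agent.H51.EP.DefF.ff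 | with_reducible apply Pool.Agent.H51.EP.DefF.fc | with_reducible apply Pool.Agent.H51.EP.DefF.pw | with_reducible apply Pool.Agent.H51.EP.DefF.sb | with_reducible apply Pool.Agent.H51.EP.DefF.rc | with_reducible apply Pool.Agent.H51.EP.Def.dvd | assumption | with_reducible exact Pool.Agent.Helper687.Arith.DefF.var _ | with_reducible exact Pool.Agent.Helper687.Arith.DefF.const _ | with_reducible exact Pool.Agent.Helper687.Arith.Def.const _ | with_reducible apply Pool.Agent.Helper687.Arith.DefF.val | with_reducible apply Pool.Agent.Helper687.Arith.DefF.pow2 | with_reducible apply Pool.Agent.Helper687.Arith.Def.and | with_reducible apply Pool.Agent.Helper687.Arith.Def.or | with_reducible apply Pool.Agent.Helper687.Arith.Def.iff | with_reducible apply Pool.Agent.Helper687.Arith.Def.not | with_reducible apply Pool.Agent.Helper687.Arith.Def.ex | with_reducible apply Pool.Agent.Helper687.Arith.Def.all | with_reducible apply Pool.Agent.Helper687.Arith.Def.imp | with_reducible apply Pool.Agent.Helper687.Arith.Def.eq | with_reducible apply Pool.Agent.Helper687.Arith.Def.lt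 | with_reducible apply Pool.Agent.Helper687.Arith.Def.le | with_reducible apply Pool.Agent.Helper687.Arith.DefF.add | with_reducible apply Pool.Agent.Helper687.Arith.DefF.mul | with_reducible apply Pool.Agent.Helper687.Arith.DefF.the)
  · exact ⟨0, by rw [add_zero, zero_mul, add_zero]⟩
  · rintro j ⟨w, hw⟩
    refine ⟨w + bn n (k + j) * pw B j, ?_⟩
    rw [← add_assoc, bs_succ, hw, pw_add]
    ring

/-- digits of `(B + 1) ^ n` -/
theorem bn_iff (n k c : M) : c = bn n k ↔ ∃ w u, pw (pw (1 + 1) n + 1 + 1) n =
    w * pw (pw (1 + 1) n + 1) (k + 1) + c * pw (pw (1 + 1) n + 1) k + u ∧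
    c < pw (1 + 1) n + 1 ∧ u < pw (pw (1 + 1) n + 1) k := by
  rw [show (1 + 1 : M) = 2 from one_add_one_eq_two]
  set B : M := pw 2 n + 1 with hBdef
  have hB : pw 2 n < B := lt_succ_iff.2 le_rfl
  have hB0 : 0 < B := lt_of_le_of_lt zero_le hB
  have hc : bn n k < B := lt_of_le_of_lt (bn_le_pw n k) hB
  obtain ⟨w, hw⟩ := bs_add B n (k + 1) n
  have h1 : bs B n (k + 1 + n) = pw (B + 1) n := by
    apply bs_eq_pw
    have : n < n + (k + 1) := lt_add_of_pos_right _ (zero_lt_succ' k)
    rwa [add_comm n] at this
  have h2 : pw (B + 1) n = w * pw B (k + 1) + bn n k * pw B k + bs B n k := by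
    rw [← h1, hw, bs_succ]
    ring
  constructor
  · rintro rfl
    exact ⟨w, bs B n k, h2, hc, bs_lt hB k⟩
  · rintro ⟨w', u', h3, h4, h5⟩
    have low : ∀ {c u : M}, c < B → u < pw B k → c * pw B k + u < pw B (k + 1) := by
      intro c u hc hu
      rw [pw_succ]
      calc c * pw B k + u < c * pw B k + pw B k := by gcongr
        _ = pw B k * (c + 1) := by ring
        _ ≤ pw B k * B := mul_le_mul_of_nonneg_left (succ_le_iff.2 hc) zero_le
    have h6 := (rem_unique (a := pw (B + 1) n) (m := pw B (k + 1)) (q := w)
      (r := bn n k * pw B k + bs B n k) (q' := w') (r' := c * pw B k + u')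
      (by rw [h2]; ring) (low hc (bs_lt hB k)) (by rw [h3]; ring) (low h4 h5)).2
    exact (rem_unique (a := bn n k * pw B k + bs B n k) (m := pw B k) (q := bn n k)
      (r := bs B n k) (q' := c) (r' := u') rfl (bs_lt hB k) h6 h5).1.symm

end

theorem DioF.pw' (hP : S_POW) {f g : ∀ (M : Type) [PAModel M], (ℕ → M) → M} (hf : DioF f)
    (hg : DioF g) : DioF (fun M _ v => pw (f M v) (g M v)) :=
  DioF.app2 (F := fun _ _ a b => pw a b) hP hf hg

theorem BB1 : S_BB1 := by
  intro hP
  have hpw : ∀ {f g : ∀ (M : Type) [PAModel M], (ℕ → M) → M}, DioF f →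
    DioF g → DioF (fun M _ v => pw (f M v) (g M v)) := fun hf hg => DioF.pw' hP hf hg
  refine Dio.congr (R := fun _ _ v => ∃ w u, pw (pw (1 + 1) (v 1) + 1 + 1) (v 1) =
    w * pw (pw (1 + 1) (v 1) + 1) (v 2 + 1) + v 0 * pw (pw (1 + 1) (v 1) + 1) (v 2) + u ∧
    v 0 < pw (1 + 1) (v 1) + 1 ∧ u < pw (pw (1 + 1) (v 1) + 1) (v 2)) ?_
    (fun M _ v => (bn_iff (v 1) (v 2) (v 0)).symm)
  repeat' first
    | (first | with_reducible apply Pool.Agent.H51.EP.DioF.sb | with_reducible apply Pool.Agent.H51.EP.Dio.cg | with_reducible apply Pool.Agent.H51.EP.DioF.pr | assumption | with_reducible exact Pool.Agent.H51.EP.DioF.var _ | with_reducible exact Pool.Agent.H51.EP.DioF.one | with_reducible exact Pool.Agent.H51.EP.DioF.zero | with_reducible exact Pool.Agent.H51.EP.DioF.num _ | with_reducible apply Pool.Agent.H51.EP.Dio.and | with_reducible apply Pool.Agent.H51.EP.Dio.or | with_reducible apply Pool.Agent.H51.EP.Dio.ex | with_reducible apply Pool.Agent.H51.EP.Dio.eq | with_reducible apply Pool.Agent.H51.EP.Dio.lt | with_reducible apply Pool.Agent.H51.EP.Dio.le | with_reducible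 apply Pool.Agent.H51.EP.Dio.ne | with_reducible apply Pool.Agent.H51.EP.Dio.dvd | with_reducible apply Pool.Agent.H51.EP.DioF.add | with_reducible apply Pool.Agent.H51.EP.DioF.mul)
    | with_reducible apply hpw

/-! ### Factorials -/

section

variable {M : Type} [PAModel M]

theorem fc_le_pw (n : M) : fc n ≤ pw (n + 1) n := by
  have key : ∀ j : M, j ≤ n → fc j ≤ pw (n + 1) j := by
    intro j
    refine ind (P := fun j => j ≤ n → fc j ≤ pw (n + 1) j) ?_ ?_ ?_ j
    · (repeat' first | with_reducible apply Pool.Agent.H42.EP.DefF.bs | with_reducible apply Pool.Agent.H87.EP.DefZ.eq | with_reducible apply Pool.Agent.H87.EP.DefZ.lt | with_reducible apply Pool.Agent.H87.EP.DefZ.le | with_reducible apply Pool.Agent.H87.EP.DefZ.dvd | with_reducible exact Pool.Agent.H87.EP.DefZ.const _ | with_reducible apply Pool.Agent.H87.EP.DefZ.coe | with_reducible apply Pool.Agent.H87.EP.DefZ.add | with_reducible apply Pool.Agent.H87.EP.DefZ.mul | with_reducible apply Pool.Agent.H87.EP.DefZ.sub | with_reducible apply Pool.Agent.H87.EP.DefZ.neg | with_reducible apply Pool.Agent.H87.EP.DefZ.npow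 | with_reducible apply Pool.Agent.H51.EP.Def.cg | with_reducible apply Pool.Agent.H51.EP.DefF.pr | with_reducible apply Pool.Agent.H51.EP.DefF.bn | with_reducible apply Pool.Agent.H51.EP.DefF.ff | with_reducible apply Pool.Agent.H51.EP.DefF.fc | with_reducible apply Pool.Agent.H51.EP.DefF.pw | with_reducible apply Pool.Agent.H51.EP.DefF.sb | with_reducible apply Pool.Agent.H51.EP.DefF.rc | with_reducible apply Pool.Agent.H51.EP.Def.dvd | assumption | with_reducible exact Pool.Agent.Helper687.Arith.DefF.var _ | with_reducible exact Pool.Agent.Helper687.Arith.DefF.const _ | with_reducible exact Pool.Agent.Helper687.Arith.Def.const _ | with_reducible apply Pool.Agent.Helper687.Arith.DefF.val | with_reducible apply Pool.Agent.Helper687.Arith.DefF.pow2 | with_reducible apply Pool.Agent.Helper687.Arith.Def.and | with_reducible apply Pool.Agent.Helper687.Arith.Def.or | with_reducible apply Pool.Agent.Helper687.Arith.Def.iff | with_reducible apply Pool.Agent.Helper687.Arith.Def.not | with_reducible apply Pool.Agent.Helper687.Arith.Def.ex | with_reducible apply Pool.Agent.Helper687.Arith.Def.all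 | with_reducible apply Pool.Agent.Helper687.Arith.Def.imp | with_reducible apply Pool.Agent.Helper687.Arith.Def.eq | with_reducible apply Pool.Agent.Helper687.Arith.Def.lt | with_reducible apply Pool.Agent.Helper687.Arith.Def.le | with_reducible apply Pool.Agent.Helper687.Arith.DefF.add | with_reducible apply Pool.Agent.Helper687.Arith.DefF.mul | with_reducible apply Pool.Agent.Helper687.Arith.DefF.the)
    · intro _
      rw [fc_zero, pw_zero]
    · intro j ih h
      have h1 : j < n := succ_le_iff.1 h
      rw [fc_succ, pw_succ]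
      exact mul_le_mul (ih h1.le) (add_le_add h1.le le_rfl) zero_le zero_le
  exact key n le_rfl

theorem ff_le_pw (a k : M) : ff a k ≤ pw a k := by
  refine ind (P := fun k => ff a k ≤ pw a k) ?_ ?_ ?_ k
  · (repeat' first | with_reducible apply Pool.Agent.H42.EP.DefF.bs | with_reducible apply Pool.Agent.H87.EP.DefZ.eq | with_reducible apply Pool.Agent.H87.EP.DefZ.lt | with_reducible apply Pool.Agent.H87.EP.DefZ.le | with_reducible apply Pool.Agent.H87.EP.DefZ.dvd | with_reducible exact Pool.Agent.H87.EP.DefZ.const _ | with_reducible apply Pool.Agent.H87.EP.DefZ.coe | with_reducible apply Pool.Agent.H87.EP.DefZ.add | with_reducible apply Pool.Agent.H87.EP.DefZ.mul | with_reducible apply Pool.Agent.H87.EP.DefZ.sub | with_reducible apply Pool.Agent.H87.EP.DefZ.neg | with_reducible apply Pool.Agent.H87.EP.DefZ.npow | with_reducible apply Pool.Agent.H51.EP.Def.cg | with_reducible apply Pool.Agent.H51.EP.DefF.pr | with_reducible apply Pool.Agent.H51.EP.DefF.bn | with_reducible apply Pool.Agent.H51.EP.DefF.ff | with_reducible apply Pool.Agent.H51.EP.DefF.fc |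 with_reducible apply Pool.Agent.H51.EP.DefF.pw | with_reducible apply Pool.Agent.H51.EP.DefF.sb | with_reducible apply Pool.Agent.H51.EP.DefF.rc | with_reducible apply Pool.Agent.H51.EP.Def.dvd | assumption | with_reducible exact Pool.Agent.Helper687.Arith.DefF.var _ | with_reducible exact Pool.Agent.Helper687.Arith.DefF.const _ | with_reducible exact Pool.Agent.Helper687.Arith.Def.const _ | with_reducible apply Pool.Agent.Helper687.Arith.DefF.val | with_reducible apply Pool.Agent.Helper687.Arith.DefF.pow2 | with_reducible apply Pool.Agent.Helper687.Arith.Def.and | with_reducible apply Pool.Agent.Helper687.Arith.Def.or | with_reducible apply Pool.Agent.Helper687.Arith.Def.iff | with_reducible apply Pool.Agent.Helper687.Arith.Def.not | with_reducible apply Pool.Agent.Helper687.Arith.Def.ex | with_reducible apply Pool.Agent.Helper687.Arith.Def.all | with_reducible apply Pool.Agent.Helper687.Arith.Def.imp | with_reducible apply Pool.Agent.Helper687.Arith.Def.eq | with_reducible apply Pool.Agent.Helper687.Arith.Def.lt | with_reducible apply Pool.Agent.Helper687.Arith.Def.le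 | with_reducible apply Pool.Agent.Helper687.Arith.DefF.add | with_reducible apply Pool.Agent.Helper687.Arith.DefF.mul | with_reducible apply Pool.Agent.Helper687.Arith.DefF.the)
  · rw [ff_zero, pw_zero]
  · intro k ih
    rw [ff_succ, pw_succ]
    refine mul_le_mul ih ?_ zero_le zero_le
    rcases le_or_gt k a with h | h
    · calc sb a k ≤ k + sb a k := le_add_self
        _ = a := sb_add h
    · rw [sb_zero h.le]
      exact zero_le

/-- `r ^ (j + 1) ≤ r (r)_j + j n r ^ j` for `j ≤ n ≤ r` -/
theorem pw_le_ff {r n : M} (hr : n ≤ r) (j : M) (hj : j ≤ n) :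
    pw r j * r ≤ r * ff r j + j * n * pw r j := by
  have key : ∀ j : M, j ≤ n → pw r j * r ≤ r * ff r j + j * n * pw r j := by
    intro j
    refine ind (P := fun j => j ≤ n → pw r j * r ≤ r * ff r j + j * n * pw r j) ?_ ?_ ?_ j
    · (repeat' first | with_reducible apply Pool.Agent.H42.EP.DefF.bs | with_reducible apply Pool.Agent.H87.EP.DefZ.eq | with_reducible apply Pool.Agent.H87.EP.DefZ.lt | with_reducible apply Pool.Agent.H87.EP.DefZ.le | with_reducible apply Pool.Agent.H87.EP.DefZ.dvd | with_reducible exact Pool.Agent.H87.EP.DefZ.const _ | with_reducible apply Pool.Agent.H87.EP.DefZ.coe | with_reducible apply Pool.Agent.H87.EP.DefZ.add | with_reducible apply Pool.Agent.H87.EP.DefZ.mul | with_reducible apply Pool.Agent.H87.EP.DefZ.sub | with_reducible apply Pool.Agent.H87.EP.DefZ.neg | with_reducible apply Pool.Agent.H87.EP.DefZ.npow | with_reducible apply Pool.Agent.H51.EP.Def.cg | with_reducible apply Pool.Agent.H51.EP.DefF.pr | with_reducible apply Pool.Agent.H51.EP.DefF.bn | with_reducible apply Pool.Agent.H51.EP.DefF.ff | with_reducible apply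 Pool.Agent.H51.EP.DefF.fc | with_reducible apply Pool.Agent.H51.EP.DefF.pw | with_reducible apply Pool.Agent.H51.EP.DefF.sb | with_reducible apply Pool.Agent.H51.EP.DefF.rc | with_reducible apply Pool.Agent.H51.EP.Def.dvd | assumption | with_reducible exact Pool.Agent.Helper687.Arith.DefF.var _ | with_reducible exact Pool.Agent.Helper687.Arith.DefF.const _ | with_reducible exact Pool.Agent.Helper687.Arith.Def.const _ | with_reducible apply Pool.Agent.Helper687.Arith.DefF.val | with_reducible apply Pool.Agent.Helper687.Arith.DefF.pow2 | with_reducible apply Pool.Agent.Helper687.Arith.Def.and | with_reducible apply Pool.Agent.Helper687.Arith.Def.or | with_reducible apply Pool.Agent.Helper687.Arith.Def.iff | with_reducible apply Pool.Agent.Helper687.Arith.Def.not | with_reducible apply Pool.Agent.Helper687.Arith.Def.ex | with_reducible apply Pool.Agent.Helper687.Arith.Def.all | with_reducible apply Pool.Agent.Helper687.Arith.Def.imp | with_reducible apply Pool.Agent.Helper687.Arith.Def.eq | with_reducible apply Pool.Agent.Helper687.Arith.Def.lt | with_reducible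 apply Pool.Agent.Helper687.Arith.Def.le | with_reducible apply Pool.Agent.Helper687.Arith.DefF.add | with_reducible apply Pool.Agent.Helper687.Arith.DefF.mul | with_reducible apply Pool.Agent.Helper687.Arith.DefF.the)
    · intro _
      rw [pw_zero, ff_zero]
      simp
    · intro j ih h
      have h1 : j < n := succ_le_iff.1 h
      have ih' := ih h1.le
      have h2 := sb_add (h1.le.trans hr)
      have h3 := ff_le_pw r j
      have h5 : j ≤ n := h1.le
      rw [pw_succ, ff_succ]
      set s := sb r j
      set F := ff r j
      set P := pw r j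
      rw [← Zr.coe_le] at ih' h3 h5 ⊢
      have h2' := congrArg (fun x : M => (x : Zr M)) h2
      have hr0 : (0 : Zr M) ≤ (r : Zr M) := Zr.coe_nonneg r
      have hj0 : (0 : Zr M) ≤ (j : Zr M) := Zr.coe_nonneg j
      have hP0 : (0 : Zr M) ≤ (P : Zr M) := Zr.coe_nonneg P
      push_cast at ih' h2' ⊢
      have e1 : (s : Zr M) = r - j := by linear_combination h2'
      rw [e1]
      have k1 := mul_le_mul_of_nonneg_right ih' hr0
      have k2 := mul_le_mul_of_nonneg_left h3 (mul_nonneg hr0 hj0)
      have k3 := mul_le_mul_of_nonneg_left h5 (mul_nonneg hP0 hr0)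
      nlinarith [k1, k2, k3]
  exact key j hj

/-- `n! = ⌊r ^ n / C(r, n)⌋` for `r > n ^ 2 ((n + 1) ^ n + 1)` -/
theorem fc_iff (n f : M) : f = fc n ↔ ∃ r, r = n * n * (pw (n + 1) n + 1) + 1 ∧
    f * bn r n ≤ pw r n ∧ pw r n < (f + 1) * bn r n := by
  set r : M := n * n * (pw (n + 1) n + 1) + 1 with hr
  have hn : n ≤ r := by
    rcases eq_or_ne n 0 with h | h
    · rw [h]; exact zero_le
    · obtain ⟨m, hm⟩ := exists_pred (pos_of_ne h)
      have h1 : (1 : M) ≤ n := by rw [hm]; exact le_add_self
      calc n = n * 1 * 1 := by ring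
        _ ≤ n * n * (pw (n + 1) n + 1) := by gcongr; exact le_add_self
        _ ≤ r := le_self_add
  have hA : pw r n * r ≤ r * ff r n + n * n * pw r n := pw_le_ff hn n le_rfl
  have hB : n * n * (fc n + 1) < r := by
    rw [hr, lt_succ_iff]
    gcongr
    exact fc_le_pw n
  have hP : 0 < pw r n := pw_pos (lt_of_le_of_lt zero_le hB) n
  have hr0 : 0 < r := lt_of_le_of_lt zero_le hB
  have e := fc_mul_bn r n
  have h1 : fc n * bn r n ≤ pw r n := by rw [e]; exact ff_le_pw r n
  have h2 : pw r n < (fc n + 1) * bn r n := by
    have hf := fc_pos n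
    rw [← e] at hA
    set b := bn r n
    set P := pw r n
    set c := fc n
    rw [← Zr.coe_lt] at hB hP hr0 hf ⊢
    rw [← Zr.coe_le] at hA
    push_cast at hA hB hP hr0 hf ⊢
    have k1 := mul_le_mul_of_nonneg_right hA (a := (c : Zr M) + 1) (by positivity)
    have k2 := mul_lt_mul_of_pos_right hB hP
    have k3 : (c : Zr M) * r * P < (c : Zr M) * r * (((c : Zr M) + 1) * b) := by
      nlinarith [k1, k2]
    exact lt_of_mul_lt_mul_left k3 (by positivity)
  constructor
  · rintro rfl
    exact ⟨r, rfl, h1, h2⟩
  · rintro ⟨r', rfl, h3, h4⟩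
    have h5 : 0 < bn r n := by
      rcases eq_or_ne (bn r n) 0 with h | h
      · rw [h, mul_zero] at h2
        exact absurd h2 (not_lt.2 zero_le)
      · exact pos_of_ne h
    apply le_antisymm
    · exact lt_succ_iff.1 (lt_of_mul_lt_mul_right (lt_of_le_of_lt h3 h2) zero_le)
    · exact lt_succ_iff.1 (lt_of_mul_lt_mul_right (lt_of_le_of_lt h1 h4) zero_le)

end

theorem BB2 : S_BB2 := by
  intro hP hB
  have hpw : ∀ {f g : ∀ (M : Type) [PAModel M], (ℕ → M) → M}, DioF f →
    DioF g → DioF (fun M _ v => pw (f M v) (g M v)) := fun hf hg => DioF.pw' hP hf hg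
  have hbn : ∀ {f g : ∀ (M : Type) [PAModel M], (ℕ → M) → M}, DioF f →
    DioF g → DioF (fun M _ v => bn (f M v) (g M v)) := fun hf hg =>
      DioF.app2 (F := fun _ _ a b => bn a b) hB hf hg
  refine Dio.congr (R := fun _ _ v => ∃ r, r = v 1 * v 1 * (pw (v 1 + 1) (v 1) + 1) + 1 ∧
    v 0 * bn r (v 1) ≤ pw r (v 1) ∧ pw r (v 1) < (v 0 + 1) * bn r (v 1)) ?_
    (fun M _ v => (fc_iff (v 1) (v 0)).symm)
  repeat' first
    | (first | with_reducible apply Pool.Agent.H51.EP.DioF.sb | with_reducible apply Pool.Agent.H51.EP.Dio.cg | with_reducible apply Pool.Agent.H51.EP.DioF.pr | assumption | with_reducible exact Pool.Agent.H51.EP.DioF.var _ | with_reducible exact Pool.Agent.H51.EP.DioF.one | with_reducible exact Pool.Agent.H51.EP.DioF.zero | with_reducible exact Pool.Agent.H51.EP.DioF.num _ | with_reducible apply Pool.Agent.H51.EP.Dio.and | with_reducible apply Pool.Agent.H51.EP.Dio.or | with_reducible apply Pool.Agent.H51.EP.Dio.ex | with_reducible apply Pool.Agent.H51.EP.Dio.eq | with_reducible apply Pool.Agent.H51.EP.Dio.lt | with_reducible apply Pool.Agent.H51.EP.Dio.le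 | with_reducible apply Pool.Agent.H51.EP.Dio.ne | with_reducible apply Pool.Agent.H51.EP.Dio.dvd | with_reducible apply Pool.Agent.H51.EP.DioF.add | with_reducible apply Pool.Agent.H51.EP.DioF.mul)
    | with_reducible apply hpw
    | with_reducible apply hbn

end Pool.Agent.H42.EP
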