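import Pool.Agent.H87.EP.PStm
import Pool.Agent.H4.EPB.Bin

/-! Part PELLW of the project EP: arithmetic of powers in a model of PA. -/

set_option autoImplicit false
set_option linter.unreachableTactic false
set_option linter.unusedTactic false

namespace Pool.Agent.H42.EP

open Pool.Agent.Helper687.Arith Pool.Agent.H51.EP Pool.Agent.H4.EPB Pool.Agent.H87.EP

variable {M : Type} [PAModel M]

theorem pw_mul' (x m n : M) : pw x (m * n) = pw (pw x m) n := by
  refine ind (P := fun n => pw x (m * n) = pw (pw x m) n) ?_ ?_ ?_ n
  · (repeat' first | with_reducible apply Pool.Agent.H87.EP.DefF.Y | with_reducible apply Pool.Agent.H87.EP.DefF.X | with_reducible apply Pool.Agent.H87.EP.DefF.dd | with_reducible apply Pool.Agent.Helper687.Arith.DefF.snd | with_reducible apply Pool.Agent.Helper687.Arith.DefF.fst | with_reducible apply Pool.Agent.H87.EP.DefZ.eq | with_reducible apply Pool.Agent.H87.EP.DefZ.lt | with_reducible apply Pool.Agent.H87.EP.DefZ.le | with_reducible apply Pool.Agent.H87.EP.DefZ.dvd | with_reducible exact Pool.Agent.H87.EP.DefZ.const _ | with_reducible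 apply Pool.Agent.H87.EP.DefZ.coe | with_reducible apply Pool.Agent.H87.EP.DefZ.add | with_reducible apply Pool.Agent.H87.EP.DefZ.mul | with_reducible apply Pool.Agent.H87.EP.DefZ.sub | with_reducible apply Pool.Agent.H87.EP.DefZ.neg | with_reducible apply Pool.Agent.H87.EP.DefZ.npow | with_reducible apply Pool.Agent.H51.EP.Def.cg | with_reducible apply Pool.Agent.H51.EP.DefF.pr | with_reducible apply Pool.Agent.H51.EP.DefF.bn | with_reducible apply Pool.Agent.H51.EP.DefF.ff | with_reducible apply Pool.Agent.H51.EP.DefF.fc | with_reducible apply Pool.Agent.H51.EP.DefF.pw | with_reducible apply Pool.Agent.H51.EP.DefF.sb | with_reducible apply Pool.Agent.H51.EP.DefF.rc | with_reducible apply Pool.Agent.H51.EP.Def.dvd | assumption | with_reducible exact Pool.Agent.Helper687.Arith.DefF.var _ | with_reducible exact Pool.Agent.Helper687.Arith.DefF.const _ | with_reducible exact Pool.Agent.Helper687.Arith.Def.const _ | with_reducible apply Pool.Agent.Helper687.Arith.DefF.val | with_reducible apply Pool.Agent.Helper687.Arith.DefF.pow2 | with_reducible apply Pool.Agent.Helper687.Arith.Def.and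 | with_reducible apply Pool.Agent.Helper687.Arith.Def.or | with_reducible apply Pool.Agent.Helper687.Arith.Def.iff | with_reducible apply Pool.Agent.Helper687.Arith.Def.not | with_reducible apply Pool.Agent.Helper687.Arith.Def.ex | with_reducible apply Pool.Agent.Helper687.Arith.Def.all | with_reducible apply Pool.Agent.Helper687.Arith.Def.imp | with_reducible apply Pool.Agent.Helper687.Arith.Def.eq | with_reducible apply Pool.Agent.Helper687.Arith.Def.lt | with_reducible apply Pool.Agent.Helper687.Arith.Def.le | with_reducible apply Pool.Agent.Helper687.Arith.DefF.add | with_reducible apply Pool.Agent.Helper687.Arith.DefF.mul | with_reducible apply Pool.Agent.Helper687.Arith.DefF.the)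
  · rw [mul_zero, pw_zero, pw_zero]
  · intro n ih
    rw [mul_add, mul_one, pw_add, ih, pw_succ]

theorem pw_le_right {x m n : M} (hx : 0 < x) (h : m ≤ n) : pw x m ≤ pw x n := by
  obtain ⟨k, rfl⟩ := exists_add_of_le h
  rw [pw_add]
  have h1 : (1 : M) ≤ pw x k := by
    have := succ_le_iff.2 (pw_pos hx k)
    rwa [zero_add] at this
  calc pw x m = pw x m * 1 := (mul_one _).symm
    _ ≤ pw x m * pw x k := mul_le_mul_of_nonneg_left h1 zero_le

theorem pw_lt_succ {x : M} (hx : 1 < x) (n : M) : pw x n < pw x (n + 1) := by
  rw [pw_succ]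
  calc pw x n = pw x n * 1 := (mul_one _).symm
    _ < pw x n * x := mul_lt_mul_of_pos_left hx (pw_pos (zero_lt_one.trans hx) n)

theorem pw_lt_right {x m n : M} (hx : 1 < x) (h : m < n) : pw x m < pw x n :=
  lt_of_lt_of_le (pw_lt_succ hx m) (pw_le_right (zero_lt_one.trans hx) (succ_le_iff.2 h))

theorem pw_lt_left {x y n : M} (h : x < y) (hn : 0 < n) : pw x n < pw y n := by
  obtain ⟨k, rfl⟩ := exists_pred hn
  have hy : 0 < y := lt_of_le_of_lt zero_le h
  rw [pw_succ, pw_succ]
  calc pw x k * x ≤ pw y k * x := mul_le_mul_of_nonneg_right (pw_le_pw_left h.le k) zero_le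
    _ < pw y k * y := mul_lt_mul_of_pos_left h (pw_pos hy k)

theorem lt_pw' {x : M} (hx : 1 < x) (n : M) : n < pw x n := by
  refine lt_of_lt_of_le (lt_pw_two n) (pw_le_pw_left ?_ n)
  have := succ_le_iff.2 hx
  rwa [one_add_one_eq_two] at this

theorem pwFacts (M : Type) [PAModel M] : PwFacts M where
  add := pw_add
  mul_base := mul_pw
  mul := pw_mul'
  one_base := one_pw
  one := pw_one
  zero_base := by
    intro n hn
    obtain ⟨k, rfl⟩ := exists_pred hn
    rw [pw_succ, mul_zero]
  pos := fun hx n => pw_pos hx n
  le_right := fun hx h => pw_le_right hx h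
  lt_right := fun hx h => pw_lt_right hx h
  le_left := fun h n => pw_le_pw_left h n
  lt_left := fun h hn => pw_lt_left h hn
  lt_pw := fun hx n => lt_pw' hx n
  le_self := by
    intro x n hn
    rcases eq_or_ne x 0 with rfl | hx
    · exact zero_le
    · obtain ⟨k, rfl⟩ := exists_pred hn
      rw [pw_succ]
      have h1 : (1 : M) ≤ pw x k := by
        have := succ_le_iff.2 (pw_pos (pos_of_ne hx) k)
        rwa [zero_add] at this
      calc x = 1 * x := (one_mul _).symm
        _ ≤ pw x k * x := mul_le_mul_of_nonneg_right h1 zero_le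
  natCast := by
    intro x n
    induction n with
    | zero => rw [Nat.cast_zero, pw_zero, pow_zero]
    | succ n ih => rw [Nat.cast_succ, pw_succ, ih, pow_succ]
  two := by
    intro n
    refine ind (P := fun n => pw 2 n = pow2 n) ?_ ?_ ?_ n
    · (repeat' first | with_reducible apply Pool.Agent.H87.EP.DefF.Y | with_reducible apply Pool.Agent.H87.EP.DefF.X | with_reducible apply Pool.Agent.H87.EP.DefF.dd | with_reducible apply Pool.Agent.Helper687.Arith.DefF.snd | with_reducible apply Pool.Agent.Helper687.Arith.DefF.fst | with_reducible apply Pool.Agent.H87.EP.DefZ.eq | with_reducible apply Pool.Agent.H87.EP.DefZ.lt | with_reducible apply Pool.Agent.H87.EP.DefZ.le | with_reducible apply Pool.Agent.H87.EP.DefZ.dvd | with_reducible exact Pool.Agent.H87.EP.DefZ.const _ | with_reducible apply Pool.Agent.H87.EP.DefZ.coe | with_reducible apply Pool.Agent.H87.EP.DefZ.add | with_reducible apply Pool.Agent.H87.EP.DefZ.mul | with_reducible apply Pool.Agent.H87.EP.DefZ.sub | with_reducible apply Pool.Agent.H87.EP.DefZ.neg | with_reducible apply Pool.Agent.H87.EP.DefZ.npow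 | with_reducible apply Pool.Agent.H51.EP.Def.cg | with_reducible apply Pool.Agent.H51.EP.DefF.pr | with_reducible apply Pool.Agent.H51.EP.DefF.bn | with_reducible apply Pool.Agent.H51.EP.DefF.ff | with_reducible apply Pool.Agent.H51.EP.DefF.fc | with_reducible apply Pool.Agent.H51.EP.DefF.pw | with_reducible apply Pool.Agent.H51.EP.DefF.sb | with_reducible apply Pool.Agent.H51.EP.DefF.rc | with_reducible apply Pool.Agent.H51.EP.Def.dvd | assumption | with_reducible exact Pool.Agent.Helper687.Arith.DefF.var _ | with_reducible exact Pool.Agent.Helper687.Arith.DefF.const _ | with_reducible exact Pool.Agent.Helper687.Arith.Def.const _ | with_reducible apply Pool.Agent.Helper687.Arith.DefF.val | with_reducible apply Pool.Agent.Helper687.Arith.DefF.pow2 | with_reducible apply Pool.Agent.Helper687.Arith.Def.and | with_reducible apply Pool.Agent.Helper687.Arith.Def.or | with_reducible apply Pool.Agent.Helper687.Arith.Def.iff | with_reducible apply Pool.Agent.Helper687.Arith.Def.not | with_reducible apply Pool.Agent.Helper687.Arith.Def.ex | with_reducible apply Pool.Agent.Helper687.Arith.Def.all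 | with_reducible apply Pool.Agent.Helper687.Arith.Def.imp | with_reducible apply Pool.Agent.Helper687.Arith.Def.eq | with_reducible apply Pool.Agent.Helper687.Arith.Def.lt | with_reducible apply Pool.Agent.Helper687.Arith.Def.le | with_reducible apply Pool.Agent.Helper687.Arith.DefF.add | with_reducible apply Pool.Agent.Helper687.Arith.DefF.mul | with_reducible apply Pool.Agent.Helper687.Arith.DefF.the)
    · rw [pw_zero, pow2_zero]
    · intro n ih
      rw [pw_succ, ih, pow2_succ, mul_two]

end Pool.Agent.H42.EP
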